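import Pool.Agent.Helper75.KS.GoalsB

/-!
# KS, goal KSF: balanced pairs in posets of large width
-/

namespace Pool.Agent.Helper90.KS

open MeasureTheory Filter Topology Finset
open Pool.Agent.Helper44.KS
open Pool.Agent.Helper75.KS
open Pool.Agent.Helper89.GP (LX po Ex Pr hh)

noncomputable section

theorem ksf_large {ε : ℝ} (hε : 1 / 2 ≤ ε) : ∃ W : ℕ, ∀ (n : ℕ) (R : Fin n → Fin n → Prop), Spo R →
    (∃ A : Finset (Fin n), W ≤ A.card ∧ ∀ a ∈ A, ∀ b ∈ A, ¬ R a b) →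
    ∃ u v, u ≠ v ∧ |(Pr R fun σ => po σ u < po σ v) - 1 / 2| ≤ ε := by
  refine ⟨2, ?_⟩
  rintro n R - ⟨A, hA, -⟩
  obtain ⟨u, -, v, -, huv⟩ := Finset.one_lt_card.mp (show 1 < A.card by omega)
  refine ⟨u, v, huv, ?_⟩
  have h0 := Pool.Agent.Helper89.GP.Pr_nonneg (R := R) (fun σ => po σ u < po σ v)
  have h1 := Pool.Agent.Helper89.GP.Pr_le_one (R := R) (fun σ => po σ u < po σ v)
  rw [abs_le]
  constructor <;> linarith

theorem ksf_step (hscb : ScbStmt) (hlxn : LxnStmt) (hpad : PadStmt) {ε : ℝ} (hε2 : ε < 1 / 2)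
    (N : ℕ) (n : ℕ) (R : Fin n → Fin n → Prop) (hR : Spo R)
    (A : Finset (Fin n)) (hA : 10 * (N + 2) ≤ A.card) (hanti : ∀ a ∈ A, ∀ b ∈ A, ¬ R a b)
    (hnb : ∀ u v, u ≠ v → ε < |(Pr R fun σ => po σ u < po σ v) - 1 / 2|) :
    ∃ (n' : ℕ) (R' : Fin n' → Fin n' → Prop) (x' : Fin n'), Std ε (N : ℝ) R' x' ∧
      (N : ℝ) ≤ dev R' x' := by
  obtain ⟨x0, -, hx0⟩ := hscb n R A hR (by omega) hanti
  obtain ⟨x, -, hx⟩ := Finset.exists_max_image (univ : Finset (Fin n)) (fun z => dev R z)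
    ⟨x0, mem_univ x0⟩
  have hcard : ((10 * (N + 2) : ℕ) : ℝ) ≤ (A.card : ℝ) := by exact_mod_cast hA
  push_cast at hcard
  have hdev : (N : ℝ) + 2 ≤ dev R x := by
    have h1 := hx x0 (mem_univ x0)
    have h2 : (N : ℝ) + 2 ≤ (A.card : ℝ) / 10 := by
      rw [le_div_iff₀ (by norm_num)]; linarith
    linarith
  have hN : (0 : ℝ) ≤ N := Nat.cast_nonneg N
  obtain ⟨n', R', x', hstd, heq⟩ := hpad n R x ε (N : ℝ) hε2 (hlxn n R hR)
    (fun z => hx z (mem_univ z)) (by linarith) hnb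
  exact ⟨n', R', x', hstd, by rw [heq]; linarith⟩

/-- KSF. -/
theorem ksf (hscb : ScbStmt) (hlxn : LxnStmt) (hpad : PadStmt) (hsys : SysStmt)
    (hmain : S_MAIN) : KsfStmt := by
  intro ε hε
  rcases le_or_gt (1 / 2) ε with h | h
  · exact ksf_large h
  by_contra hcon
  push Not at hcon
  have key : ∀ N : ℕ, ∃ (n' : ℕ) (R' : Fin n' → Fin n' → Prop) (x' : Fin n'),
      Std ε (N : ℝ) R' x' ∧ (N : ℝ) ≤ dev R' x' := by
    intro N
    obtain ⟨n, R, hR, ⟨A, hA, hanti⟩, hnb⟩ := hcon (10 * (N + 2))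
    exact ksf_step hscb hlxn hpad h N n R hR A hA hanti hnb
  choose n' R' x' hstd hdev using key
  obtain ⟨Z, hZ1, hZ2⟩ := hsys ε n' R' x' hε hstd
    (tendsto_atTop_mono hdev tendsto_natCast_atTop_atTop)
  exact hmain ε hε Z hZ1 hZ2

end

end Pool.Agent.Helper90.KS
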