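import Pool.Agent.Helper75.KS.GoalsX

/-!
# KS, goal MOM: the moments of the exponential model
-/

namespace Pool.Agent.Helper90.KS

open MeasureTheory Filter Topology Finset
open Pool.Agent.Helper44.KS
open Pool.Agent.Helper75.KS
open Pool.Agent.Helper89.GP (LX po Ex Pr hh Ch Ex_add Ex_sub Ex_mono Ex_const Ex_congr)

noncomputable section

/-- Cauchy-Schwarz for a probability measure. -/
theorem int_abs_le_sqrt {α : Type*} [MeasurableSpace α] (μ : Measure α) [IsProbabilityMeasure μ]
    (f : α → ℝ) (h1 : Integrable f μ) (h2 : Integrable (fun x => f x ^ 2) μ) :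
    ∫ x, |f x| ∂μ ≤ √(∫ x, f x ^ 2 ∂μ) := by
  set m := ∫ x, |f x| ∂μ with hm
  have hle : ∀ x, 2 * m * |f x| ≤ f x ^ 2 + m ^ 2 := by
    intro x
    have := sq_nonneg (|f x| - m)
    have h3 := sq_abs (f x)
    nlinarith
  have hint := integral_mono (μ := μ) (f := fun x => 2 * m * |f x|)
    (g := fun x => f x ^ 2 + m ^ 2) (h1.abs.const_mul _) (h2.add (integrable_const _))
    (fun x => hle x)
  rw [integral_const_mul, integral_add h2 (integrable_const _), integral_const] at hint
  simp only [probReal_univ, smul_eq_mul, one_mul] at hint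
  rw [← hm] at hint
  have h4 : m ^ 2 ≤ ∫ x, f x ^ 2 ∂μ := by nlinarith
  exact (le_abs_self m).trans (Real.abs_le_sqrt h4)

/-- Jensen for the square root and a random linear extension. -/
theorem Ex_sqrt_le {n : ℕ} {R : Fin n → Fin n → Prop} (h : (LX R).Nonempty)
    (X : Equiv.Perm (Fin n) → ℝ) (hX : ∀ σ, 0 ≤ X σ) :
    (Ex R fun σ => √(X σ)) ≤ √(Ex R X) := by
  have hc := Pool.Agent.Helper89.GP.card_pos_real h
  have h1 : (Ex R fun σ => √(X σ)) ^ 2 ≤ Ex R X := by
    unfold Ex
    rw [div_pow, div_le_div_iff₀ (by positivity) hc]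
    have h2 := sq_sum_le_card_mul_sum_sq (s := LX R) (f := fun σ => √(X σ))
    have h3 : ∑ σ ∈ LX R, √(X σ) ^ 2 = ∑ σ ∈ LX R, X σ :=
      Finset.sum_congr rfl fun σ _ => Real.sq_sqrt (hX σ)
    rw [h3] at h2
    nlinarith
  exact (le_abs_self _).trans (Real.abs_le_sqrt h1)

theorem mom (hexm : ExmStmt) (hgmm : GmmStmt) (hprb : PrbStmt) : MomStmt := by
  intro n R hne
  haveI : IsProbabilityMeasure (P0 n) := hprb.1 n
  obtain ⟨hE, -⟩ := hexm n R hne
  have hI : ∀ j : Fin n, Integrable (fun x : Fin n → ℝ => x j) (P0 n) := fun j =>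
    (hgmm n j j).1
  have hI2 : ∀ j : Fin n, Integrable (fun x : Fin n → ℝ => x j ^ 2) (P0 n) := fun j =>
    (hgmm n j j).2.2.1
  refine ⟨fun z => ?_, fun p q => ?_⟩
  · obtain ⟨h1, h2⟩ := hE (fun x => x z) (measurable_pi_apply z) (fun σ _ => hI (σ z))
    refine ⟨h1, h2.trans ?_⟩
    have h3 : (Ex R fun σ => ∫ x, (fun x : Fin n → ℝ => x z) (fun a => x (σ a)) ∂(P0 n)) =
        Ex R fun σ => (po σ z : ℝ) + 1 := by
      refine Ex_congr fun σ _ => ?_
      exact (hgmm n (σ z) (σ z)).2.1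
    rw [h3, Ex_add, Ex_const hne]
    rfl
  · set c : ℝ := hh R p - hh R q with hc
    have hmeas : Measurable (fun x : Fin n → ℝ => |x p - x q - c|) := by fun_prop
    obtain ⟨-, h2⟩ := hE (fun x => |x p - x q - c|) hmeas (fun σ _ =>
      (((hI (σ p)).sub (hI (σ q))).sub (integrable_const c)).abs)
    rw [h2]
    have hbound : ∀ σ ∈ LX R,
        ∫ x, (fun x : Fin n → ℝ => |x p - x q - c|) (fun a => x (σ a)) ∂(P0 n) ≤
        √|(po σ p : ℝ) - po σ q| + (|(po σ p : ℝ) - hh R p| + |(po σ q : ℝ) - hh R q|) := by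
      intro σ _
      set g : (Fin n → ℝ) → ℝ := fun x => x (σ p) - x (σ q) - (((σ p : ℕ) : ℝ) - ((σ q : ℕ) : ℝ))
        with hg
      have hgi : Integrable g (P0 n) :=
        ((hI (σ p)).sub (hI (σ q))).sub (integrable_const _)
      have hg2 : Integrable (fun x => g x ^ 2) (P0 n) := by
        have hdom : Integrable (fun x : Fin n → ℝ => 3 * (x (σ p) ^ 2 + x (σ q) ^ 2 +
            (((σ p : ℕ) : ℝ) - ((σ q : ℕ) : ℝ)) ^ 2)) (P0 n) :=
          (((hI2 (σ p)).add (hI2 (σ q))).add (integrable_const _)).const_mul 3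
        refine hdom.mono' ?_ (Filter.Eventually.of_forall fun x => ?_)
        · have : Measurable (fun x : Fin n → ℝ => g x ^ 2) := by
            rw [hg]; fun_prop
          exact this.aestronglyMeasurable
        · rw [Real.norm_eq_abs, abs_of_nonneg (sq_nonneg _)]
          simp only [hg]
          nlinarith [sq_nonneg (x (σ p) + x (σ q)),
            sq_nonneg (x (σ p) + (((σ p : ℕ) : ℝ) - ((σ q : ℕ) : ℝ))),
            sq_nonneg (x (σ q) - (((σ p : ℕ) : ℝ) - ((σ q : ℕ) : ℝ)))]
      have hg3 : ∫ x, |g x| ∂(P0 n) ≤ √|(po σ p : ℝ) - po σ q| := by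
        have h5 := int_abs_le_sqrt (P0 n) g hgi hg2
        have h6 : ∫ x, g x ^ 2 ∂(P0 n) = |((σ p : ℕ) : ℝ) - ((σ q : ℕ) : ℝ)| :=
          (hgmm n (σ q) (σ p)).2.2.2
        rw [h6] at h5
        exact h5
      set d : ℝ := |(po σ p : ℝ) - hh R p| + |(po σ q : ℝ) - hh R q| with hd
      have hle : ∫ x, (fun x : Fin n → ℝ => |x p - x q - c|) (fun a => x (σ a)) ∂(P0 n) ≤
          ∫ x, (|g x| + d) ∂(P0 n) := by
        refine integral_mono ((((hI (σ p)).sub (hI (σ q))).sub (integrable_const c)).abs)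
          (hgi.abs.add (integrable_const d)) fun x => ?_
        show |x (σ p) - x (σ q) - c| ≤ |g x| + d
        have h7 : x (σ p) - x (σ q) - c = g x +
            (((po σ p : ℝ) - hh R p) - ((po σ q : ℝ) - hh R q)) := by
          simp only [hg, hc, po]; ring
        rw [h7]
        calc |g x + (((po σ p : ℝ) - hh R p) - ((po σ q : ℝ) - hh R q))|
            ≤ |g x| + |((po σ p : ℝ) - hh R p) - ((po σ q : ℝ) - hh R q)| := abs_add_le _ _
          _ ≤ |g x| + d := by
            have := abs_sub ((po σ p : ℝ) - hh R p) ((po σ q : ℝ) - hh R q)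
            rw [hd]; linarith
      rw [integral_add hgi.abs (integrable_const d), integral_const] at hle
      simp only [probReal_univ, smul_eq_mul, one_mul] at hle
      linarith
    refine (Ex_mono hbound).trans ?_
    have h8 : (Ex R fun σ => √|(po σ p : ℝ) - po σ q| +
        (|(po σ p : ℝ) - hh R p| + |(po σ q : ℝ) - hh R q|)) =
        (Ex R fun σ => √|(po σ p : ℝ) - po σ q|) + (dev R p + dev R q) := by
      rw [Ex_add, Ex_add]; rfl
    rw [h8]
    have h9 : (Ex R fun σ => √|(po σ p : ℝ) - po σ q|) ≤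
        √(Ex R fun σ => |(po σ p : ℝ) - po σ q|) :=
      Ex_sqrt_le hne (fun σ => |(po σ p : ℝ) - po σ q|) fun σ => abs_nonneg _
    have h10 : (Ex R fun σ => |(po σ p : ℝ) - po σ q|) ≤ |c| + dev R p + dev R q := by
      have h11 : (Ex R fun σ => |(po σ p : ℝ) - po σ q|) ≤
          Ex R fun σ => |c| + (|(po σ p : ℝ) - hh R p| + |(po σ q : ℝ) - hh R q|) := by
        refine Ex_mono fun σ _ => ?_
        have h12 : (po σ p : ℝ) - po σ q = c +
            (((po σ p : ℝ) - hh R p) - ((po σ q : ℝ) - hh R q)) := by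
          rw [hc]; ring
        rw [h12]
        have h13 := abs_add_le c (((po σ p : ℝ) - hh R p) - ((po σ q : ℝ) - hh R q))
        have h14 := abs_sub ((po σ p : ℝ) - hh R p) ((po σ q : ℝ) - hh R q)
        linarith
      rw [Ex_add, Ex_const hne, Ex_add] at h11
      have h15 : (Ex R fun σ => |(po σ p : ℝ) - hh R p|) = dev R p := rfl
      have h16 : (Ex R fun σ => |(po σ q : ℝ) - hh R q|) = dev R q := rfl
      rw [h15, h16] at h11
      linarith
    have h17 := Real.sqrt_le_sqrt h10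
    linarith

end

end Pool.Agent.Helper90.KS
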