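import Pool.Agent.Helper42.KS.Goals

/-! Packet C1 (MP_40ec72_an): the trivial range of the counting argument. -/

set_option autoImplicit false

namespace Pool.Agent.Helper42.KS.PkC1

theorem card_box (d R : ℕ) : (box d R).card = R ^ d := by
  unfold box
  rw [Fintype.card_piFinset]
  simp

theorem thm : G_C1 := by
  intro k d lam E F hk hkd hl0 hl1 h
  rcases F.eq_empty_or_nonempty with rfl | hF
  · rw [Finset.card_empty, Nat.cast_zero]
    positivity
  choose! j n hn hl hh using h
  obtain ⟨x0, hx0, hmax⟩ := F.exists_max_image j hF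
  have hsub : F ⊆ E.biUnion (fun y => (box d (2 ^ j x0)).image (fun t => y + t)) := by
    intro x hx
    have h1 := hh x hx
    unfold hits at h1
    obtain ⟨y, hy⟩ := Finset.card_pos.1 h1
    rw [Finset.mem_filter] at hy
    obtain ⟨hyE, hyx, hsum⟩ := hy
    rw [Finset.mem_biUnion]
    refine ⟨y, hyE, ?_⟩
    rw [Finset.mem_image]
    refine ⟨x - y, ?_, by simp⟩
    unfold box
    rw [Fintype.mem_piFinset]
    intro i
    rw [Finset.mem_Ico, Pi.sub_apply]
    refine ⟨by have := hyx i; omega, ?_⟩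
    have hlt : x i - y i < 2 ^ j x := by
      by_contra hcon
      push Not at hcon
      have h2 : ((2 : ℤ) ^ j x) ^ k ≤ (x i - y i) ^ k := pow_le_pow_left₀ (by positivity) hcon k
      have h3 : (x i - y i) ^ k ≤ ∑ i, (x i - y i) ^ k :=
        Finset.single_le_sum (f := fun i => (x i - y i) ^ k)
          (fun i _ => pow_nonneg (sub_nonneg.2 (hyx i)) k) (Finset.mem_univ i)
      have h4 := hn x hx
      rw [pow_mul] at h4
      rw [hsum] at h3
      exact absurd (h2.trans h3) (not_le.2 h4)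
    have h5 : (2 : ℤ) ^ j x ≤ 2 ^ j x0 := pow_le_pow_right₀ (by norm_num) (hmax x hx)
    push_cast
    exact hlt.trans_le h5
  have hcard : (F.card : ℝ) ≤ E.card * ((2 : ℝ) ^ j x0) ^ d := by
    have h1 : F.card ≤ E.card * (2 ^ j x0) ^ d := by
      refine (Finset.card_le_card hsub).trans ?_
      refine Finset.card_biUnion_le_card_mul _ _ _ fun y _ => ?_
      rw [← card_box d (2 ^ j x0)]
      exact Finset.card_image_le
    exact_mod_cast h1
  refine hcard.trans ?_
  rw [mul_comm]
  refine mul_le_mul_of_nonneg_right ?_ (Nat.cast_nonneg _)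
  have hl' := hl x0 hx0
  have hdk : (0 : ℝ) < (d : ℝ) - k := sub_pos.2 (by exact_mod_cast hkd)
  have h1 : (2 : ℝ) ^ (j x0 * (d - k)) ≤ lam⁻¹ := by
    rw [le_inv_comm₀ (by positivity) hl0, ← one_div, le_div_iff₀ (by positivity)]
    exact hl'.le
  have h2 : ((2 : ℝ) ^ (j x0 * (d - k))) ^ ((d : ℝ) / ((d : ℝ) - k)) ≤
      (lam⁻¹) ^ ((d : ℝ) / ((d : ℝ) - k)) :=
    Real.rpow_le_rpow (by positivity) h1 (by positivity)
  rw [Real.inv_rpow hl0.le, ← Real.rpow_neg hl0.le] at h2
  refine le_trans (le_of_eq ?_) h2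
  rw [← Real.rpow_natCast, ← Real.rpow_natCast, ← Real.rpow_natCast, ← Real.rpow_mul (by norm_num),
    ← Real.rpow_mul (by norm_num)]
  congr 1
  rw [Nat.cast_mul, Nat.cast_sub hkd.le]
  field_simp

end Pool.Agent.Helper42.KS.PkC1
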