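import Pool.Agent.Helper27.KS.GoalsF

/-!
# KS, goal NRE: elements near `x` that do not move are rare
-/

namespace Pool.Agent.Helper90.KS

open MeasureTheory Filter Topology Finset
open Pool.Agent.Helper44.KS Pool.Agent.Helper75.KS Pool.Agent.Helper27.KS
open Pool.Agent.Helper89.GP (LX po Ex Pr hh bq Gd gp df Ex_add Ex_sub Ex_mono Ex_const Ex_mul Ex_sum
  po_inj)

noncomputable section

/-- The positions are different integers. -/
theorem card_near {n : ℕ} (σ : Equiv.Perm (Fin n)) (x : Fin n) (Q : Finset (Fin n)) (T : ℝ)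
    (hT : 0 ≤ T) (hQ : ∀ q ∈ Q, |df σ x q| ≤ T) : (Q.card : ℝ) ≤ 2 * T + 1 := by
  classical
  set p : ℤ := (po σ x : ℤ) with hp
  have hmaps : ∀ q ∈ Q, ((po σ q : ℤ)) ∈ Finset.Icc ⌈(p : ℝ) - T⌉ ⌊(p : ℝ) + T⌋ := by
    intro q hq
    have h1 := abs_le.mp (hQ q hq)
    unfold df at h1
    rw [Finset.mem_Icc]
    constructor
    · rw [Int.ceil_le]
      push_cast [hp]
      linarith [h1.1]
    · rw [Int.le_floor]
      push_cast [hp]
      linarith [h1.2]
  have hinj : Set.InjOn (fun q => (po σ q : ℤ)) (Q : Set (Fin n)) := by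
    intro a _ b _ hab
    have hab2 : ((po σ a : ℕ) : ℤ) = ((po σ b : ℕ) : ℤ) := hab
    have hab' : po σ a = po σ b := by exact_mod_cast hab2
    exact po_inj.1 hab'
  have hcard := Finset.card_le_card_of_injOn (fun q => (po σ q : ℤ)) hmaps hinj
  rw [Int.card_Icc] at hcard
  have hfl : (⌊(p : ℝ) + T⌋ : ℝ) ≤ (p : ℝ) + T := Int.floor_le _
  have hce : (p : ℝ) - T ≤ (⌈(p : ℝ) - T⌉ : ℝ) := Int.le_ceil _
  have hreal : ((⌊(p : ℝ) + T⌋ + 1 - ⌈(p : ℝ) - T⌉ : ℤ) : ℝ) ≤ 2 * T + 1 := by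
    push_cast
    linarith
  rcases le_or_gt 0 (⌊(p : ℝ) + T⌋ + 1 - ⌈(p : ℝ) - T⌉) with h | h
  · have h2 : (((⌊(p : ℝ) + T⌋ + 1 - ⌈(p : ℝ) - T⌉).toNat : ℕ) : ℝ) =
        ((⌊(p : ℝ) + T⌋ + 1 - ⌈(p : ℝ) - T⌉ : ℤ) : ℝ) := by
      have := Int.toNat_of_nonneg h
      exact_mod_cast this
    calc (Q.card : ℝ) ≤ (((⌊(p : ℝ) + T⌋ + 1 - ⌈(p : ℝ) - T⌉).toNat : ℕ) : ℝ) := by
          exact_mod_cast hcard
      _ = _ := h2
      _ ≤ _ := hreal
  · rw [Int.toNat_eq_zero.mpr h.le] at hcard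
    have : Q.card = 0 := by omega
    rw [this]
    push_cast
    linarith

theorem nre : NreStmt := by
  classical
  intro n R x S θ hne hS hθ hθ2
  set Q : Finset (Fin n) := univ.filter (fun q => |gp R x q| ≤ S / 6 ∧
    (Ex R fun σ => |df σ x q - gp R x q|) < θ * S) with hQ
  have hS0 : (0 : ℝ) < S := by linarith
  have hlow : ∀ q ∈ Q, (9 / 10 : ℝ) ≤
      Ex R fun σ => if |df σ x q| ≤ S / 4 then (1 : ℝ) else 0 := by
    intro q hq
    rw [hQ, Finset.mem_filter] at hq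
    obtain ⟨-, hg, hE⟩ := hq
    have h1 : (Ex R fun _ => (1 : ℝ)) - (Ex R fun σ => if |df σ x q| ≤ S / 4 then (1 : ℝ) else 0)
        ≤ (12 / S) * Ex R fun σ => |df σ x q - gp R x q| := by
      rw [← Ex_sub, ← Ex_mul]
      refine Ex_mono fun σ _ => ?_
      have h12 : 0 ≤ 12 / S := by positivity
      by_cases hc : |df σ x q| ≤ S / 4
      · rw [if_pos hc]
        simp only [sub_self]
        positivity
      · rw [if_neg hc]
        push Not at hc
        have h2 : S / 12 ≤ |df σ x q - gp R x q| := by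
          have h3 := abs_sub_abs_le_abs_sub (df σ x q) (gp R x q)
          linarith
        have h4 : (12 / S) * (S / 12) = 1 := by field_simp
        have h5 := mul_le_mul_of_nonneg_left h2 h12
        linarith
    rw [Ex_const hne] at h1
    have h6 : (12 / S) * (Ex R fun σ => |df σ x q - gp R x q|) ≤ 1 / 10 := by
      have h7 : (12 / S) * (Ex R fun σ => |df σ x q - gp R x q|) ≤ (12 / S) * (θ * S) :=
        mul_le_mul_of_nonneg_left hE.le (by positivity)
      have h8 : (12 / S) * (θ * S) = 12 * θ := by field_simp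
      linarith
    linarith
  have hsum : (9 / 10 : ℝ) * Q.card ≤
      Ex R fun σ => ∑ q ∈ Q, if |df σ x q| ≤ S / 4 then (1 : ℝ) else 0 := by
    rw [Ex_sum]
    calc (9 / 10 : ℝ) * Q.card = ∑ _q ∈ Q, (9 / 10 : ℝ) := by
          rw [Finset.sum_const, nsmul_eq_mul]; ring
      _ ≤ _ := Finset.sum_le_sum hlow
  have hup : (Ex R fun σ => ∑ q ∈ Q, if |df σ x q| ≤ S / 4 then (1 : ℝ) else 0) ≤ S / 2 + 1 := by
    rw [← Ex_const hne (S / 2 + 1)]
    refine Ex_mono fun σ _ => ?_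
    rw [Finset.sum_boole]
    have h := card_near σ x (Q.filter fun q => |df σ x q| ≤ S / 4) (S / 4) (by positivity)
      (fun q hq => (Finset.mem_filter.mp hq).2)
    linarith
  linarith

end

end Pool.Agent.Helper90.KS
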