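import Pool.Agent.Helper44.KS.GoalsD

/-!
# KS, goal TCT: counting points of a family in an interval
-/

namespace Pool.Agent.Helper90.KS

open Pool.Agent.Helper44.KS
open MeasureTheory Filter Topology Set
open scoped ENNReal ContDiff

noncomputable section

theorem tct : S_TCT := by
  intro r T N t u v ht huv
  have hS := T.S_pos N
  have hτ := T.τ_pos
  have hR := T.R_pos
  set D : ℝ := v - u + 2 * T.τ * T.R with hD
  have hD0 : 0 ≤ D := by
    have : 0 ≤ 2 * T.τ * T.R := by positivity
    rw [hD]; linarith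
  set K : ℕ := ⌊D⌋₊ + 1 with hK
  have hKle : (K : ℝ) ≤ D + 1 := by
    rw [hK]; push_cast
    have := Nat.floor_le hD0
    linarith
  have hsub : ((T.P N).filter fun p => u ≤ T.a N p + ∑ i, t i * T.w N p i ∧
      T.a N p + ∑ i, t i * T.w N p i ≤ v) ⊆
      (Finset.range K).biUnion fun j => (T.P N).filter fun p =>
        (u - T.τ * T.R + (j : ℝ)) ≤ T.a N p ∧ T.a N p < (u - T.τ * T.R + (j : ℝ)) + 1 := by
    intro p hp
    rw [Finset.mem_filter] at hp
    obtain ⟨hpP, h1, h2⟩ := hp
    have habs : |∑ i, t i * T.w N p i| ≤ T.τ * T.R := by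
      calc |∑ i, t i * T.w N p i| ≤ ∑ i, |t i * T.w N p i| := Finset.abs_sum_le_sum_abs _ _
        _ ≤ ∑ i, |t i| * T.R := by
          refine Finset.sum_le_sum fun i _ => ?_
          rw [abs_mul]
          exact mul_le_mul_of_nonneg_left (T.bd N p hpP i) (abs_nonneg _)
        _ = (∑ i, |t i|) * T.R := by rw [Finset.sum_mul]
        _ ≤ T.τ * T.R := mul_le_mul_of_nonneg_right ht hR.le
    have hb := abs_le.mp habs
    have hlo : 0 ≤ T.a N p - (u - T.τ * T.R) := by linarith [hb.2]
    have hhi : T.a N p - (u - T.τ * T.R) ≤ D := by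
      rw [hD]; linarith [hb.1]
    rw [Finset.mem_biUnion]
    refine ⟨⌊T.a N p - (u - T.τ * T.R)⌋₊, ?_, ?_⟩
    · rw [Finset.mem_range, hK]
      exact Nat.lt_succ_of_le (Nat.floor_le_floor hhi)
    · rw [Finset.mem_filter]
      refine ⟨hpP, ?_, ?_⟩
      · have := Nat.floor_le hlo
        linarith
      · have := Nat.lt_floor_add_one (T.a N p - (u - T.τ * T.R))
        linarith
  have hcard := Finset.card_le_card hsub
  have hcard2 : (((T.P N).filter fun p => u ≤ T.a N p + ∑ i, t i * T.w N p i ∧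
      T.a N p + ∑ i, t i * T.w N p i ≤ v).card : ℝ) ≤ (K : ℝ) * (15 * T.S N) := by
    calc (((T.P N).filter fun p => u ≤ T.a N p + ∑ i, t i * T.w N p i ∧
        T.a N p + ∑ i, t i * T.w N p i ≤ v).card : ℝ)
        ≤ (((Finset.range K).biUnion fun j => (T.P N).filter fun p =>
            (u - T.τ * T.R + (j : ℝ)) ≤ T.a N p ∧
              T.a N p < (u - T.τ * T.R + (j : ℝ)) + 1).card : ℝ) := by exact_mod_cast hcard
      _ ≤ ((∑ j ∈ Finset.range K, ((T.P N).filter fun p =>
            (u - T.τ * T.R + (j : ℝ)) ≤ T.a N p ∧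
              T.a N p < (u - T.τ * T.R + (j : ℝ)) + 1).card : ℕ) : ℝ) := by
          exact_mod_cast Finset.card_biUnion_le
      _ = ∑ j ∈ Finset.range K, (((T.P N).filter fun p =>
            (u - T.τ * T.R + (j : ℝ)) ≤ T.a N p ∧
              T.a N p < (u - T.τ * T.R + (j : ℝ)) + 1).card : ℝ) := by push_cast; rfl
      _ ≤ ∑ _j ∈ Finset.range K, (15 * T.S N) :=
          Finset.sum_le_sum fun j _ => T.cnt N _
      _ = (K : ℝ) * (15 * T.S N) := by
          rw [Finset.sum_const, Finset.card_range, nsmul_eq_mul]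
  refine hcard2.trans ?_
  have h15 : 0 ≤ 15 * T.S N := by positivity
  calc (K : ℝ) * (15 * T.S N) ≤ (D + 2) * (15 * T.S N) :=
        mul_le_mul_of_nonneg_right (by linarith) h15
    _ = 15 * (v - u + 2 * T.τ * T.R + 2) * T.S N := by rw [hD]; ring

end

end Pool.Agent.Helper90.KS
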